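import Pool.Agent.Lib.MP_6bc78b_nt.MS.L.Iface
import Pool.Agent.Lib.MP_6bc78b_nt.MS.L.H45.Mna
import Pool.Agent.Lib.MP_6bc78b_nt.MS.L.H67.Ps2

/-! Project MS, Part IIIa, module MNB (helper19): the terms with two primes. -/

set_option autoImplicit false

open Filter Topology ArithmeticFunction

namespace Pool.Agent.Lib.MP_6bc78b_nt.MS.L.H19

open Pool.Agent.Lib.MP_6bc78b_nt.MS Pool.Agent.Lib.MP_6bc78b_nt.MS.L
open Pool.Agent.Lib.MP_6bc78b_nt.MS.L.H45

lemma w2_nonneg (n : ℕ) : 0 ≤ w2 n := by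
  unfold w2
  split_ifs with h
  · exact (logdiv_le h).1
  · exact le_rfl

lemma w2_le_one (n : ℕ) : w2 n ≤ 1 := by
  unfold w2
  split_ifs with h
  · exact (logdiv_le h).2
  · exact zero_le_one

lemma prime_of_w2 {n : ℕ} (h : w2 n ≠ 0) : n.Prime := by
  by_contra hn
  exact h (by unfold w2; rw [if_neg hn])

/-- The convolution square of `w2`. -/
noncomputable def V (n : ℕ) : ℝ := ∑ x ∈ n.divisorsAntidiagonal, w2 x.1 * w2 x.2

lemma V_nonneg (n : ℕ) : 0 ≤ V n :=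
  Finset.sum_nonneg fun _ _ => mul_nonneg (w2_nonneg _) (w2_nonneg _)

lemma La_div {n : ℕ} (hn : Squarefree n) : La n / (n.totient : ℝ) = w2 n := by
  unfold w2
  split_ifs with h
  · rw [Nat.totient_prime h]
    have h1 : La n = Real.log n := ArithmeticFunction.vonMangoldt_apply_prime h
    rw [h1, Nat.cast_sub h.one_lt.le, Nat.cast_one]
  · have : La n = 0 := by
      by_contra h0
      exact h (Nat.squarefree_and_prime_pow_iff_prime.1
        ⟨hn, ArithmeticFunction.vonMangoldt_ne_zero_iff.1 h0⟩)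
    rw [this, zero_div]

lemma conv_div {n : ℕ} (hn : Squarefree n) : (La * La) n / (n.totient : ℝ) = V n := by
  rw [ArithmeticFunction.mul_apply, Finset.sum_div]
  unfold V
  refine Finset.sum_congr rfl fun x hx => ?_
  obtain ⟨h1, -⟩ := Nat.mem_divisorsAntidiagonal.1 hx
  rw [← h1] at hn
  have hc := Nat.coprime_of_squarefree_mul hn
  rw [← La_div (Squarefree.of_mul_left hn), ← La_div (Squarefree.of_mul_right hn), ← h1,
    Nat.totient_mul hc, Nat.cast_mul]
  rw [div_mul_div_comm]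

lemma w2_sq_le {n : ℕ} : w2 n ^ 2 ≤ 64 * (n : ℝ) ^ (-(3 / 2) : ℝ) := by
  unfold w2
  split_ifs with h
  · have h2 : (2 : ℝ) ≤ n := by exact_mod_cast h.two_le
    have hn0 : (0 : ℝ) < n := by linarith
    have h3 : Real.log n ≤ 4 * (n : ℝ) ^ (1 / 4 : ℝ) := by
      have := Real.log_le_rpow_div hn0.le (show (0 : ℝ) < 1 / 4 by norm_num)
      linarith
    have h4 : 0 ≤ Real.log n := Real.log_nonneg (by linarith)
    have h5 : Real.log n ^ 2 ≤ 16 * (n : ℝ) ^ (1 / 2 : ℝ) := by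
      have h6 := pow_le_pow_left₀ h4 h3 2
      have h7 : ((n : ℝ) ^ (1 / 4 : ℝ)) ^ 2 = (n : ℝ) ^ (1 / 2 : ℝ) := by
        rw [← Real.rpow_natCast, ← Real.rpow_mul hn0.le]
        norm_num
      rw [mul_pow, h7] at h6
      linarith
    have h8 : (n : ℝ) ^ 2 / 4 ≤ ((n : ℝ) - 1) ^ 2 := by nlinarith
    have h9 : (n : ℝ) ^ (-(3 / 2) : ℝ) * (n : ℝ) ^ 2 = (n : ℝ) ^ (1 / 2 : ℝ) := by
      rw [← Real.rpow_natCast, ← Real.rpow_add hn0]
      norm_num
    have h10 : 0 ≤ (n : ℝ) ^ (-(3 / 2) : ℝ) := Real.rpow_nonneg hn0.le _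
    rw [div_pow, div_le_iff₀ (by nlinarith)]
    calc Real.log n ^ 2 ≤ 16 * (n : ℝ) ^ (1 / 2 : ℝ) := h5
      _ = 64 * (n : ℝ) ^ (-(3 / 2) : ℝ) * ((n : ℝ) ^ 2 / 4) := by rw [← h9]; ring
      _ ≤ 64 * (n : ℝ) ^ (-(3 / 2) : ℝ) * ((n : ℝ) - 1) ^ 2 :=
        mul_le_mul_of_nonneg_left h8 (by positivity)
  · rw [zero_pow two_ne_zero]
    positivity

lemma w2_sq_sum : ∃ S : ℝ, 0 ≤ S ∧ ∀ N : ℕ, ∑ n ∈ Finset.Icc 1 N, w2 n ^ 2 ≤ S := by
  have hs : Summable (fun n : ℕ => 64 * (n : ℝ) ^ (-(3 / 2) : ℝ)) :=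
    (Real.summable_nat_rpow.2 (by norm_num)).mul_left 64
  have h0 : ∀ n : ℕ, 0 ≤ 64 * (n : ℝ) ^ (-(3 / 2) : ℝ) := fun n => by positivity
  refine ⟨∑' n : ℕ, 64 * (n : ℝ) ^ (-(3 / 2) : ℝ), tsum_nonneg h0, fun N => ?_⟩
  exact (Finset.sum_le_sum fun n _ => w2_sq_le).trans (hs.sum_le_tsum _ fun n _ => h0 n)

/-- The weights of the terms which are left out. -/
noncomputable def Gq (q a b : ℕ) : ℝ :=
  w2 a * w2 b * ((if a = b then 1 else 0) + (if a = q then 1 else 0) + (if b = q then 1 else 0))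

lemma Gq_nonneg (q a b : ℕ) : 0 ≤ Gq q a b := by
  unfold Gq
  have := w2_nonneg a
  have := w2_nonneg b
  positivity

lemma V_bad {q n : ℕ} (hq : q = 1 ∨ q.Prime) (hn : ¬ (Squarefree n ∧ Nat.Coprime n q)) :
    V n ≤ ∑ x ∈ n.divisorsAntidiagonal, Gq q x.1 x.2 := by
  unfold V
  refine Finset.sum_le_sum fun x hx => ?_
  obtain ⟨h1, -⟩ := Nat.mem_divisorsAntidiagonal.1 hx
  unfold Gq
  have ha := w2_nonneg x.1
  have hb := w2_nonneg x.2
  have hab := mul_nonneg ha hb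
  have i1 : (0 : ℝ) ≤ if x.1 = x.2 then 1 else 0 := by positivity
  have i2 : (0 : ℝ) ≤ if x.1 = q then 1 else 0 := by positivity
  have i3 : (0 : ℝ) ≤ if x.2 = q then 1 else 0 := by positivity
  by_cases h0 : w2 x.1 * w2 x.2 = 0
  · rw [h0, zero_mul]
  have hp1 := prime_of_w2 (left_ne_zero_of_mul h0)
  have hp2 := prime_of_w2 (right_ne_zero_of_mul h0)
  have key : (1 : ℝ) ≤ (if x.1 = x.2 then 1 else 0) + (if x.1 = q then 1 else 0) +
      (if x.2 = q then 1 else 0) := by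
    by_cases e1 : x.1 = x.2
    · rw [if_pos e1]; linarith
    have hsq : Squarefree n := by
      rw [← h1, Nat.squarefree_mul ((Nat.coprime_primes hp1 hp2).2 e1)]
      exact ⟨hp1.squarefree, hp2.squarefree⟩
    have hnc : ¬ Nat.Coprime n q := fun h => hn ⟨hsq, h⟩
    rcases hq with rfl | hq
    · exact absurd (Nat.coprime_one_right n) hnc
    · have hd : q ∣ x.1 * x.2 := by
        rw [h1]
        by_contra h
        exact hnc ((Nat.Prime.coprime_iff_not_dvd hq).2 h).symm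
      rcases (Nat.Prime.dvd_mul hq).1 hd with h | h
      · rw [if_pos ((Nat.prime_dvd_prime_iff_eq hq hp1).1 h).symm]; linarith
      · rw [if_pos ((Nat.prime_dvd_prime_iff_eq hq hp2).1 h).symm]; linarith
  nlinarith

lemma bad_sum (q N : ℕ) (S W : ℝ) (hS : ∑ n ∈ Finset.Icc 1 N, w2 n ^ 2 ≤ S)
    (hW : ∑ n ∈ Finset.Icc 1 N, w2 n ≤ W) (hq : q = 1 ∨ q.Prime) :
    ∑ n ∈ (Finset.Icc 1 N).filter (fun n => ¬ (Squarefree n ∧ Nat.Coprime n q)), V n ≤
      S + 2 * W := by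
  have h1 : ∑ n ∈ (Finset.Icc 1 N).filter (fun n => ¬ (Squarefree n ∧ Nat.Coprime n q)), V n ≤
      ∑ n ∈ Finset.Icc 1 N, ∑ x ∈ n.divisorsAntidiagonal, Gq q x.1 x.2 := by
    refine (Finset.sum_le_sum fun n hn => V_bad hq (Finset.mem_filter.1 hn).2).trans ?_
    exact Finset.sum_le_sum_of_subset_of_nonneg (Finset.filter_subset _ _)
      fun n _ _ => Finset.sum_nonneg fun x _ => Gq_nonneg q x.1 x.2
  refine h1.trans ?_
  rw [H67.sum_pairs N (Gq q)]
  have h2 : ∑ a ∈ Finset.Icc 1 N, ∑ b ∈ Finset.Icc 1 (N / a), Gq q a b ≤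
      ∑ a ∈ Finset.Icc 1 N, ∑ b ∈ Finset.Icc 1 N, Gq q a b := by
    refine Finset.sum_le_sum fun a _ => ?_
    exact Finset.sum_le_sum_of_subset_of_nonneg
      (Finset.Icc_subset_Icc_right (Nat.div_le_self N a)) fun b _ _ => Gq_nonneg q a b
  refine h2.trans ?_
  have h3 : ∑ a ∈ Finset.Icc 1 N, ∑ b ∈ Finset.Icc 1 N, Gq q a b =
      ∑ a ∈ Finset.Icc 1 N, w2 a ^ 2 +
      (∑ a ∈ Finset.Icc 1 N, if a = q then w2 a else 0) * (∑ b ∈ Finset.Icc 1 N, w2 b) +
      (∑ a ∈ Finset.Icc 1 N, w2 a) * (∑ b ∈ Finset.Icc 1 N, if b = q then w2 b else 0) := by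
    rw [Finset.sum_mul_sum, Finset.sum_mul_sum, ← Finset.sum_add_distrib,
      ← Finset.sum_add_distrib]
    refine Finset.sum_congr rfl fun a ha => ?_
    have h4 : w2 a ^ 2 = ∑ b ∈ Finset.Icc 1 N, if a = b then w2 a * w2 b else 0 := by
      rw [Finset.sum_ite_eq, if_pos ha, sq]
    rw [h4, ← Finset.sum_add_distrib, ← Finset.sum_add_distrib]
    refine Finset.sum_congr rfl fun b _ => ?_
    unfold Gq
    split_ifs <;> ring
  rw [h3]
  have h5 : (∑ a ∈ Finset.Icc 1 N, if a = q then w2 a else 0) ≤ 1 := by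
    rw [Finset.sum_ite_eq']
    split_ifs
    · exact w2_le_one q
    · exact zero_le_one
  have h6 : 0 ≤ (∑ a ∈ Finset.Icc 1 N, if a = q then w2 a else 0) := by
    rw [Finset.sum_ite_eq']
    split_ifs
    · exact w2_nonneg q
    · exact le_rfl
  have h7 : 0 ≤ ∑ b ∈ Finset.Icc 1 N, w2 b := Finset.sum_nonneg fun b _ => w2_nonneg b
  nlinarith [mul_le_mul_of_nonneg_right h5 h7]

set_option maxHeartbeats 4000000 in
theorem mnb (hm : MerStatement) (h : Ps2Statement) : MnbStatement := by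
  intro th c1 c2 hth hth2
  obtain ⟨C0, hC0, -, hw2, -⟩ := hm
  obtain ⟨S, hS0, hS⟩ := w2_sq_sum
  obtain ⟨C1, hC1, hP⟩ := h w2 C0 hC0.le w2_nonneg hw2
  set B : ℝ := |c1| + |c2| with hBd
  set Kf : ℝ := (|c1| + 2 * |c2|) / th + (2 * |c1| + 3 * |c2|) with hKf
  have hc1 := abs_nonneg c1
  have hc2 := abs_nonneg c2
  have hB0 : 0 ≤ B := by positivity
  have hq0 : 0 ≤ (|c1| + 2 * |c2|) / th := by positivity
  have hBK : B ≤ Kf := by rw [hBd, hKf]; linarith
  refine ⟨C1 * Kf + B * (S + 2 * (1 + C0)) + 1, by positivity, ?_⟩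
  filter_upwards [eventually_ge_atTop (Real.exp 1)] with T hT q hq c z hc hcT hz
  have hT0 : 0 < T := (Real.exp_pos 1).trans_le hT
  set L : ℝ := Real.log T with hL
  have hL1 : 1 ≤ L := by
    rw [hL, ← Real.log_exp 1]
    exact Real.log_le_log (Real.exp_pos 1) hT
  have hL0 : 0 < L := by linarith
  have hthL : 0 < th * L := by positivity
  have hc0 : 0 < c := by linarith
  have hlc0 : 0 ≤ Real.log c := Real.log_nonneg hc
  have hTth : T ^ th = Real.exp (th * L) := by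
    rw [Real.rpow_def_of_pos hT0, mul_comm]
  have hlcT : Real.log c ≤ th * L := by
    have := Real.log_le_log hc0 hcT
    rwa [hTth, Real.log_exp] at this
  have hz0 : 0 ≤ z := by
    rw [hz, sub_nonneg, div_le_one hthL]; exact hlcT
  have hz1 : z ≤ 1 := by
    rw [hz]
    have : 0 ≤ Real.log c / (th * L) := by positivity
    linarith
  have ht0 : 0 ≤ th * z := by positivity
  have ht1 : th * z ≤ 1 := by nlinarith
  have hexp : Real.exp (th * z * L) = T ^ th / c := by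
    rw [hTth, hz]
    have : th * (1 - Real.log c / (th * L)) * L = th * L - Real.log c := by
      field_simp
    rw [this, Real.exp_sub, Real.exp_log hc0]
  have harg : ∀ n : ℕ, 1 - (Real.log n + Real.log c) / (th * L) = z - (Real.log n / L) / th := by
    intro n
    rw [hz]
    field_simp
    ring
  set M : ℕ := ⌊T ^ th / c⌋₊ with hM
  have hX1 : 1 ≤ T ^ th / c := by rw [one_le_div hc0]; exact hcT
  have hmem : ∀ p ∈ Finset.Icc 1 M, 0 ≤ Real.log p ∧ Real.log p ≤ th * L - Real.log c := by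
    intro p hp
    rw [Finset.mem_Icc] at hp
    have h1 : (1 : ℝ) ≤ p := by exact_mod_cast hp.1
    have h2 : (p : ℝ) ≤ T ^ th / c := by
      have h3 : 0 ≤ T ^ th / c := by positivity
      exact (Nat.le_floor_iff h3).1 hp.2
    refine ⟨Real.log_nonneg h1, ?_⟩
    have h4 := Real.log_le_log (by linarith) h2
    rw [Real.log_div (by positivity) hc0.ne', hTth, Real.log_exp] at h4
    exact h4
  have hPP : ∀ p ∈ Finset.Icc 1 M, |PP c1 c2 (1 - (Real.log p + Real.log c) / (th * L))| ≤ B := by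
    intro p hp
    obtain ⟨h1, h2⟩ := hmem p hp
    apply abs_PP_le
    · rw [sub_nonneg, div_le_one hthL]; linarith
    · have : 0 ≤ (Real.log p + Real.log c) / (th * L) := by positivity
      linarith
  have hf1 : ∀ u ∈ Set.Icc 0 (th * z), |fA c1 c2 th z u| ≤ Kf := by
    intro u hu
    obtain ⟨h0, h1⟩ := arg_mem hth hz1 hu
    exact (abs_PP_le h0 h1).trans hBK
  have hf1' : ∀ u ∈ Set.Icc 0 (th * z), |fA' c1 c2 th z u| ≤ Kf := by
    intro u hu
    refine (abs_fA'_le hth hz1 hu).trans ?_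
    rw [hKf]; linarith
  have hcf' : Continuous (fA' c1 c2 th z) := by
    unfold fA'; fun_prop
  have P1 := hP L (th * z) Kf (fA c1 c2 th z) (fA' c1 c2 th z) hL1 ht0 ht1
    (hasDerivAt_fA c1 c2 th z) hcf' hf1 hf1'
  rw [hexp, integral_ufA c1 c2 z hth] at P1
  -- the Mertens sum
  have hW : ∑ n ∈ Finset.Icc 1 M, w2 n ≤ L + C0 := by
    have h1 := (abs_le.1 (hw2 (T ^ th / c) hX1)).2
    have h2 : Real.log (T ^ th / c) ≤ L := by
      rw [Real.log_div (by positivity) hc0.ne', hTth, Real.log_exp]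
      nlinarith
    linarith
  have hbad := bad_sum q M S (L + C0) (hS M) hW hq
  -- the sum over good n
  have e1 : ∑ m ∈ (Finset.Icc 1 M).filter (fun m => Squarefree m ∧ Nat.Coprime m q),
      PP c1 c2 (1 - (Real.log m + Real.log c) / (th * L)) * ((La * La) m / (m.totient : ℝ)) =
      ∑ m ∈ (Finset.Icc 1 M).filter (fun m => Squarefree m ∧ Nat.Coprime m q),
        V m * fA c1 c2 th z (Real.log m / L) := by
    refine Finset.sum_congr rfl fun m hm => ?_
    rw [conv_div (Finset.mem_filter.1 hm).2.1, harg m, mul_comm]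
    rfl
  have e2 : ∑ n ∈ Finset.Icc 1 M, V n * fA c1 c2 th z (Real.log n / L) =
      ∑ m ∈ (Finset.Icc 1 M).filter (fun m => Squarefree m ∧ Nat.Coprime m q),
        V m * fA c1 c2 th z (Real.log m / L) +
      ∑ m ∈ (Finset.Icc 1 M).filter (fun m => ¬ (Squarefree m ∧ Nat.Coprime m q)),
        V m * fA c1 c2 th z (Real.log m / L) :=
    (Finset.sum_filter_add_sum_filter_not _ _ _).symm
  have e3 : |∑ m ∈ (Finset.Icc 1 M).filter (fun m => ¬ (Squarefree m ∧ Nat.Coprime m q)),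
        V m * fA c1 c2 th z (Real.log m / L)| ≤ B * (S + 2 * (L + C0)) := by
    refine (Finset.abs_sum_le_sum_abs _ _).trans ?_
    refine le_trans ?_ (mul_le_mul_of_nonneg_left hbad hB0)
    rw [Finset.mul_sum]
    refine Finset.sum_le_sum fun m hm => ?_
    have h1 := hPP m (Finset.mem_filter.1 hm).1
    rw [harg m] at h1
    have h2 : |fA c1 c2 th z (Real.log m / L)| ≤ B := h1
    rw [abs_mul, abs_of_nonneg (V_nonneg m), mul_comm]
    exact mul_le_mul_of_nonneg_right h2 (V_nonneg m)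
  have e4 : B * (S + 2 * (L + C0)) ≤ B * (S + 2 * (1 + C0)) * L := by
    rw [mul_assoc]
    apply mul_le_mul_of_nonneg_left _ hB0
    nlinarith
  have P2 : |∑ n ∈ Finset.Icc 1 M, V n * fA c1 c2 th z (Real.log n / L) -
      L ^ 2 * (th ^ 2 * (c1 * z ^ 3 / 6 + c2 * z ^ 4 / 12))| ≤ C1 * Kf * L := P1
  rw [e1]
  rw [e2] at P2
  have h8 := abs_le.1 P2
  have h9 := abs_le.1 e3
  have e5 : (C1 * Kf + B * (S + 2 * (1 + C0)) + 1) * L =
      C1 * Kf * L + B * (S + 2 * (1 + C0)) * L + L := by ring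
  rw [abs_le, e5]
  constructor <;> linarith [h8.1, h8.2, h9.1, h9.2]

end Pool.Agent.Lib.MP_6bc78b_nt.MS.L.H19
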